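import Pool.Agent.H461R3.Col.Defs

/-! The split colour algebra over a field `K`, as an algebra over a subfield `F`. -/

namespace Pool.Agent.H461R3.Col

universe u

/-- The 7-dimensional split colour algebra over `K`: elements `(α, u, v)` with
`(α,u,v)(α',u',v') = (αα' + u·v' + v·u', αu' + α'u + v×v', αv' + α'v - 2 u×u')`. -/
def Colour (K : Type u) : Type u := Fin 7 → K

variable {K : Type u} [Field K]

instance : AddCommGroup (Colour K) := inferInstanceAs (AddCommGroup (Fin 7 → K))

instance {F : Type u} [Field F] [Algebra F K] : Module F (Colour K) :=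
  inferInstanceAs (Module F (Fin 7 → K))

/-- multiplication of the colour algebra -/
def cmul (x y : Fin 7 → K) : Fin 7 → K :=
  ![x 0 * y 0 + (x 1 * y 4 + x 2 * y 5 + x 3 * y 6) + (x 4 * y 1 + x 5 * y 2 + x 6 * y 3),
    x 0 * y 1 + x 1 * y 0 + (x 5 * y 6 - x 6 * y 5),
    x 0 * y 2 + x 2 * y 0 + (x 6 * y 4 - x 4 * y 6),
    x 0 * y 3 + x 3 * y 0 + (x 4 * y 5 - x 5 * y 4),
    x 0 * y 4 + x 4 * y 0 - 2 * (x 2 * y 3 - x 3 * y 2),
    x 0 * y 5 + x 5 * y 0 - 2 * (x 3 * y 1 - x 1 * y 3),
    x 0 * y 6 + x 6 * y 0 - 2 * (x 1 * y 2 - x 2 * y 1)]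

instance : Mul (Colour K) := ⟨fun x y => cmul x y⟩

omit [Field K] in
theorem ext' {x y : Colour K} (h : ∀ i : Fin 7, x i = y i) : x = y := funext h

theorem mul_def (x y : Colour K) : x * y = cmul x y := rfl

@[simp] theorem add_ap (x y : Colour K) (i : Fin 7) : (x + y) i = x i + y i := rfl
@[simp] theorem sub_ap (x y : Colour K) (i : Fin 7) : (x - y) i = x i - y i := rfl
@[simp] theorem zero_ap (i : Fin 7) : (0 : Colour K) i = 0 := rfl

@[simp] theorem m0 (x y : Colour K) : (x * y) 0 =
    x 0 * y 0 + (x 1 * y 4 + x 2 * y 5 + x 3 * y 6) + (x 4 * y 1 + x 5 * y 2 + x 6 * y 3) := rfl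
@[simp] theorem m1 (x y : Colour K) : (x * y) 1 =
    x 0 * y 1 + x 1 * y 0 + (x 5 * y 6 - x 6 * y 5) := rfl
@[simp] theorem m2 (x y : Colour K) : (x * y) 2 =
    x 0 * y 2 + x 2 * y 0 + (x 6 * y 4 - x 4 * y 6) := rfl
@[simp] theorem m3 (x y : Colour K) : (x * y) 3 =
    x 0 * y 3 + x 3 * y 0 + (x 4 * y 5 - x 5 * y 4) := rfl
@[simp] theorem m4 (x y : Colour K) : (x * y) 4 =
    x 0 * y 4 + x 4 * y 0 - 2 * (x 2 * y 3 - x 3 * y 2) := rfl
@[simp] theorem m5 (x y : Colour K) : (x * y) 5 =
    x 0 * y 5 + x 5 * y 0 - 2 * (x 3 * y 1 - x 1 * y 3) := rfl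
@[simp] theorem m6 (x y : Colour K) : (x * y) 6 =
    x 0 * y 6 + x 6 * y 0 - 2 * (x 1 * y 2 - x 2 * y 1) := rfl

omit [Field K] in
theorem ext7 {x y : Colour K} (h0 : x 0 = y 0) (h1 : x 1 = y 1) (h2 : x 2 = y 2)
    (h3 : x 3 = y 3) (h4 : x 4 = y 4) (h5 : x 5 = y 5) (h6 : x 6 = y 6) : x = y := by
  apply ext'
  intro i
  fin_cases i
  · exact h0
  · exact h1
  · exact h2
  · exact h3
  · exact h4
  · exact h5
  · exact h6

instance : NonUnitalNonAssocRing (Colour K) where
  left_distrib a b c := by apply ext7 <;> simp <;> ring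
  right_distrib a b c := by apply ext7 <;> simp <;> ring
  zero_mul a := by apply ext7 <;> simp
  mul_zero a := by apply ext7 <;> simp

section
variable {F : Type u} [Field F] [Algebra F K]

@[simp] theorem smul_ap (c : F) (x : Colour K) (i : Fin 7) : (c • x) i = c • x i := rfl

instance : IsScalarTower F (Colour K) (Colour K) where
  smul_assoc c x y := by
    apply ext7 <;> simp [Algebra.smul_def] <;> ring

instance : SMulCommClass F (Colour K) (Colour K) where
  smul_comm c x y := by
    apply ext7 <;> simp [Algebra.smul_def] <;> ring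

end

theorem colour_ncj : IsNCJ (Colour K) := by
  constructor
  · intro x y
    rw [associator_apply]
    apply ext7 <;> simp <;> ring
  · intro x y
    rw [associator_apply]
    apply ext7 <;> simp <;> ring

theorem colour_comm : CommutatorId (Colour K) := by
  intro x y
  rw [associator_apply]
  apply ext7 <;> simp <;> ring

/-- the `i`-th basis vector times a scalar -/
def bas (i : Fin 7) (c : K) : Colour K := fun j => if j = i then c else 0

@[simp] theorem bas_ap (i j : Fin 7) (c : K) : bas i c j = if j = i then c else 0 := rfl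

theorem colour_not_comm (h2 : (2 : K) ≠ 0) : ¬ IsJord (Colour K) := by
  rintro ⟨h, -⟩
  have h1 := congrFun (h (bas 4 1) (bas 5 1)) 3
  simp at h1
  exact h2 (by linear_combination h1)

theorem colour_not_alt : ¬ IsAlt (Colour K) := by
  rintro ⟨h, -⟩
  have h1 := congrFun (h (bas 1 1) (bas 4 1)) 1
  rw [associator_apply] at h1
  simp at h1

/-! ### Simplicity -/

section simple
variable {F : Type u} [Field F] [Algebra F K]

/-- the element 1 -/
def one : Colour K := bas 0 1

theorem one_mul' (x : Colour K) : one * x = x := by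
  apply ext7 <;> simp [one]

theorem scal_mem {I : Submodule F (Colour K)} (hI : IsIdeal F (Colour K) I)
    {c : K} (hc : c ≠ 0) (h : bas 0 c ∈ I) : I = ⊤ := by
  rw [Submodule.eq_top_iff']
  intro x
  have h1 := (hI _ (bas 0 c⁻¹) h).1
  have e1 : (bas 0 c * bas 0 c⁻¹ : Colour K) = one := by
    apply ext7 <;> simp [one, hc]
  rw [e1] at h1
  have h2 := (hI _ x h1).1
  rwa [one_mul'] at h2

/-- an ideal containing a nonzero element `(0,u,0)` is everything -/
theorem u_mem {I : Submodule F (Colour K)} (hI : IsIdeal F (Colour K) I)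
    {x : Colour K} (hx : x ∈ I) (h0 : x 0 = 0) (h4 : x 4 = 0) (h5 : x 5 = 0) (h6 : x 6 = 0)
    (hne : x 1 ≠ 0 ∨ x 2 ≠ 0 ∨ x 3 ≠ 0) : I = ⊤ := by
  rcases hne with h | h | h
  · refine scal_mem hI h ?_
    have := (hI _ (bas 4 1) hx).1
    convert this using 1
    apply ext7 <;> simp [h0, h4, h5, h6]
  · refine scal_mem hI h ?_
    have := (hI _ (bas 5 1) hx).1
    convert this using 1
    apply ext7 <;> simp [h0, h4, h5, h6]
  · refine scal_mem hI h ?_
    have := (hI _ (bas 6 1) hx).1
    convert this using 1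
    apply ext7 <;> simp [h0, h4, h5, h6]

/-- an ideal containing a nonzero element `(0,0,v)` is everything -/
theorem v_mem {I : Submodule F (Colour K)} (hI : IsIdeal F (Colour K) I)
    {x : Colour K} (hx : x ∈ I) (h0 : x 0 = 0) (h4 : x 1 = 0) (h5 : x 2 = 0) (h6 : x 3 = 0)
    (hne : x 4 ≠ 0 ∨ x 5 ≠ 0 ∨ x 6 ≠ 0) : I = ⊤ := by
  rcases hne with h | h | h
  · refine scal_mem hI h ?_
    have := (hI _ (bas 1 1) hx).1
    convert this using 1
    apply ext7 <;> simp [h0, h4, h5, h6]
  · refine scal_mem hI h ?_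
    have := (hI _ (bas 2 1) hx).1
    convert this using 1
    apply ext7 <;> simp [h0, h4, h5, h6]
  · refine scal_mem hI h ?_
    have := (hI _ (bas 3 1) hx).1
    convert this using 1
    apply ext7 <;> simp [h0, h4, h5, h6]

theorem colour_simple (h2 : (2 : K) ≠ 0) : IsSimpleAlg F (Colour K) := by
  refine ⟨⟨one, one, ?_⟩, ?_⟩
  · intro h
    have := congrFun h 0
    simp [one] at this
  intro I hI
  by_cases hb : I = ⊥
  · exact Or.inl hb
  right
  obtain ⟨x, hx, hx0⟩ := (Submodule.ne_bot_iff I).1 hb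
  -- commutators with basis vectors
  have hc : ∀ y : Colour K, x * y - y * x ∈ I := fun y =>
    I.sub_mem (hI x y hx).1 (hI x y hx).2
  by_cases hv : x 4 ≠ 0 ∨ x 5 ≠ 0 ∨ x 6 ≠ 0
  · -- commutator with (0,0,e)
    rcases hv with h | h | h
    · refine u_mem hI (hc (bas 5 1)) ?_ ?_ ?_ ?_ (Or.inr (Or.inr ?_))
      · simp
      · simp
      · simp
      · simp
      · simp
        intro h'
        exact mul_ne_zero h2 h (by linear_combination h')
    · refine u_mem hI (hc (bas 6 1)) ?_ ?_ ?_ ?_ (Or.inl ?_)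
      · simp
      · simp
      · simp
      · simp
      · simp
        intro h'
        exact mul_ne_zero h2 h (by linear_combination h')
    · refine u_mem hI (hc (bas 4 1)) ?_ ?_ ?_ ?_ (Or.inr (Or.inl ?_))
      · simp
      · simp
      · simp
      · simp
      · simp
        intro h'
        exact mul_ne_zero h2 h (by linear_combination h')
  · push Not at hv
    obtain ⟨v4, v5, v6⟩ := hv
    by_cases hu : x 1 ≠ 0 ∨ x 2 ≠ 0 ∨ x 3 ≠ 0
    · rcases hu with h | h | h
      · refine v_mem hI (hc (bas 2 1)) ?_ ?_ ?_ ?_ (Or.inr (Or.inr ?_))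
        · simp
        · simp
        · simp
        · simp
        · simp
          intro h'
          exact mul_ne_zero (mul_ne_zero h2 h2) h (by linear_combination -h')
      · refine v_mem hI (hc (bas 3 1)) ?_ ?_ ?_ ?_ (Or.inl ?_)
        · simp
        · simp
        · simp
        · simp
        · simp
          intro h'
          exact mul_ne_zero (mul_ne_zero h2 h2) h (by linear_combination -h')
      · refine v_mem hI (hc (bas 1 1)) ?_ ?_ ?_ ?_ (Or.inr (Or.inl ?_))
        · simp
        · simp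
        · simp
        · simp
        · simp
          intro h'
          exact mul_ne_zero (mul_ne_zero h2 h2) h (by linear_combination -h')
    · push Not at hu
      obtain ⟨u1, u2, u3⟩ := hu
      have hx00 : x 0 ≠ 0 := by
        intro h
        apply hx0
        apply ext7 <;> simp [h, u1, u2, u3, v4, v5, v6]
      refine scal_mem hI hx00 ?_
      convert hx using 1
      apply ext7 <;> simp [u1, u2, u3, v4, v5, v6]

/-- If `K` is not finite over `F`, neither is the colour algebra. -/
theorem colour_infinite (h : ¬ Module.Finite F K) : ¬ Module.Finite F (Colour K) := by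
  intro hf
  apply h
  have : Module.Finite F (Fin 7 → K) := hf
  exact Module.Finite.of_surjective (LinearMap.proj (R := F) (φ := fun _ : Fin 7 => K) 0)
    (Function.surjective_eval 0)

end simple

theorem ratFunc_infinite (F : Type u) [Field F] : ¬ Module.Finite F (RatFunc F) := by
  intro h
  have h1 : Algebra.IsAlgebraic F (RatFunc F) := Algebra.IsAlgebraic.of_finite F (RatFunc F)
  exact RatFunc.transcendental_X (K := F) (h1.isAlgebraic _)

end Pool.Agent.H461R3.Col
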