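import Mathlib

/-! Definitions for MP_52e257_al. -/

namespace Pool.Agent.H461R3.Col

universe u v

/-- A two-sided ideal of the (nonassociative) `F`-algebra `A`: a subspace absorbing products on
both sides. -/
def IsIdeal (F : Type u) (A : Type v) [Field F] [NonUnitalNonAssocRing A] [Module F A]
    (I : Submodule F A) : Prop :=
  ∀ a b : A, a ∈ I → a * b ∈ I ∧ b * a ∈ I

/-- Simple: `A² ≠ 0` and the only two-sided ideals are `0` and `A`. -/
def IsSimpleAlg (F : Type u) (A : Type v) [Field F] [NonUnitalNonAssocRing A] [Module F A] :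
    Prop :=
  (∃ a b : A, a * b ≠ 0) ∧ ∀ I : Submodule F A, IsIdeal F A I → I = ⊥ ∨ I = ⊤

/-- Noncommutative Jordan: flexible, with the Jordan identity `(x²,y,x) = 0`. -/
def IsNCJ (A : Type v) [NonUnitalNonAssocRing A] : Prop :=
  (∀ x y : A, associator x y x = 0) ∧ ∀ x y : A, associator (x * x) y x = 0

/-- The identity `([x,y],y,y) = 0`. -/
def CommutatorId (A : Type v) [NonUnitalNonAssocRing A] : Prop :=
  ∀ x y : A, associator (x * y - y * x) y y = 0

/-- Alternative: `(x,x,y) = 0 = (y,x,x)`. -/
def IsAlt (A : Type v) [NonUnitalNonAssocRing A] : Prop :=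
  (∀ x y : A, associator x x y = 0) ∧ ∀ x y : A, associator y x x = 0

/-- Jordan: commutative, with `(x²,y,x) = 0`. -/
def IsJord (A : Type v) [NonUnitalNonAssocRing A] : Prop :=
  (∀ x y : A, x * y = y * x) ∧ ∀ x y : A, associator (x * x) y x = 0

end Pool.Agent.H461R3.Col
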